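import Pool.Agent.helper9.PrimeEq
import Pool.Agent.helper9.TreeOrd

set_option autoImplicit false

/-!
# Spherical parking functions by degree and uprooted trees by surface inversions

For every `n ≥ 1` and `k ≥ 0` the number of spherical parking functions of length `n` and degree
`n choose 2 - k + 1` equals the number of uprooted trees on `n` vertices with exactly `k` surface
inversions.

The proof.  After subtracting `1` from every entry the spherical parking functions are the prime
parking functions.  Let `F n` be the inversion enumerator of rooted forests on `n` labelled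
vertices; it is also the area enumerator of parking functions of length `n`, by the classical
recursion.  Splitting a parking function at its first return gives
`F n = ∑ (n choose k) V k F (n-k)` with `V` the area enumerator of prime parking functions.
On the other side, splitting off the tree with the largest root of a forest and an identity for
subset convolutions (both sides are sums over set partitions, and their block weights agree
because `[a+b] + q^(a+b) [a] = [2a+b] = [a] + q^a [a+b]`) give
`F n = ∑ (n choose k) q^(k-1) U k F (n-k)` with `U` the surface inversion enumerator of uprooted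
trees.  Hence `V k = q^(k-1) U k`.
-/

namespace Pool.Agent.Results.MP_dc922b_co.SphericalUprooted

open Pool.Agent.helper9 Finset

/-- `a` is a spherical parking function of length `n`: its nondecreasing rearrangement
`c_1 ≤ ⋯ ≤ c_n` (which is `a ∘ Tuple.sort a`, with `c_{i+1}` the value at the index `i`, as
indices in `Fin n` start at `0`) satisfies `c_1 = 1` and `c_j < j` for `2 ≤ j ≤ n`. -/
def IsSphericalParking {n : ℕ} (a : Fin n → ℕ) : Prop :=
  (∀ i : Fin n, (i : ℕ) = 0 → (a ∘ Tuple.sort a) i = 1) ∧
    ∀ i : Fin n, 1 ≤ (i : ℕ) → (a ∘ Tuple.sort a) i < (i : ℕ) + 1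

/-- `(G, r)` is an uprooted tree: `G` is a tree and the root `r` is larger than each of its
children, that is, its neighbours. -/
def IsUprooted {n : ℕ} (G : SimpleGraph (Fin n)) (r : Fin n) : Prop :=
  G.IsTree ∧ ∀ c, G.Adj r c → c < r

/-- `y` is a descendant of `x` in the tree `G` with root `r`: `y ≠ x` and `x` lies on the path
from `r` to `y`. -/
def IsDescendant {n : ℕ} (G : SimpleGraph (Fin n)) (r x y : Fin n) : Prop :=
  y ≠ x ∧ ∃ w : G.Walk r y, w.IsPath ∧ x ∈ w.support

/-- The surface inversions of the tree `G` with root `r`: the pairs `(x, y)` of vertices different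
from `r` such that `y` is a descendant of `x` and `x > y`. -/
def surfaceInversions {n : ℕ} (G : SimpleGraph (Fin n)) (r : Fin n) : Set (Fin n × Fin n) :=
  {p | p.1 ≠ r ∧ p.2 ≠ r ∧ IsDescendant G r p.1 p.2 ∧ p.1 > p.2}

section Parking

open Parking

theorem card_lt_comp_perm {n : ℕ} (a : Fin n → ℕ) (σ : Equiv.Perm (Fin n)) (t : ℕ) :
    (univ.filter (fun x => (a ∘ σ) x < t)).card = (univ.filter (fun x => a x < t)).card := by
  refine Finset.card_bij (fun x _ => σ x) ?_ ?_ ?_
  · intro x hx
    rw [Finset.mem_filter] at hx ⊢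
    exact ⟨Finset.mem_univ _, hx.2⟩
  · intro x _ y _ h
    exact σ.injective h
  · intro y hy
    rw [Finset.mem_filter] at hy
    refine ⟨σ.symm y, Finset.mem_filter.2 ⟨Finset.mem_univ _, ?_⟩, by simp⟩
    simpa using hy.2

theorem monotone_lt_iff {n : ℕ} {c : Fin n → ℕ} (hc : Monotone c) (j : Fin n) (t : ℕ) :
    c j < t ↔ (j : ℕ) < (univ.filter (fun x => c x < t)).card := by
  constructor
  · intro h
    have h1 : Finset.Iic j ⊆ univ.filter (fun x => c x < t) := by
      intro x hx
      rw [Finset.mem_Iic] at hx
      exact Finset.mem_filter.2 ⟨Finset.mem_univ _, lt_of_le_of_lt (hc hx) h⟩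
    have h2 := Finset.card_le_card h1
    rw [Fin.card_Iic] at h2
    omega
  · intro h
    by_contra hlt
    have h1 : univ.filter (fun x => c x < t) ⊆ Finset.Iio j := by
      intro x hx
      rw [Finset.mem_filter] at hx
      rw [Finset.mem_Iio]
      by_contra hx'
      have := hc (not_lt.1 hx')
      omega
    have h2 := Finset.card_le_card h1
    rw [Fin.card_Iio] at h2
    omega

theorem sort_lt_iff {n : ℕ} (a : Fin n → ℕ) (j : Fin n) (t : ℕ) :
    (a ∘ Tuple.sort a) j < t ↔ (j : ℕ) < (univ.filter (fun x => a x < t)).card := by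
  rw [monotone_lt_iff (Tuple.monotone_sort a), card_lt_comp_perm]

theorem IsSphericalParking.one_le {n : ℕ} {a : Fin n → ℕ} (h : IsSphericalParking a)
    (x : Fin n) : 1 ≤ a x := by
  have hn : 0 < n := lt_of_le_of_lt (Nat.zero_le _) x.isLt
  have h1 := h.1 ⟨0, hn⟩ rfl
  have h2 : (a ∘ Tuple.sort a) ⟨0, hn⟩ ≤ (a ∘ Tuple.sort a) ((Tuple.sort a).symm x) :=
    Tuple.monotone_sort a (by rw [Fin.le_def]; exact Nat.zero_le _)
  rw [h1] at h2
  simpa using h2

theorem isSphericalParking_succ_iff {n : ℕ} (hn : 1 ≤ n) (b : Fin n → ℕ) :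
    IsSphericalParking (fun x => b x + 1) ↔
      IsPF univ b ∧ Min (fun C : Finset (Fin n) => C.Nonempty) univ b := by
  have hcard : (univ : Finset (Fin n)).card = n := Finset.card_fin n
  have hf : ∀ t, (univ.filter (fun x => b x + 1 < t + 1)).card
      = (univ.filter (fun x => b x < t)).card := by
    intro t
    congr 1
    refine Finset.filter_congr fun x _ => ?_
    omega
  unfold IsSphericalParking
  simp only [sort_lt_iff]
  constructor
  · rintro ⟨h0, h1⟩
    have h1' : ∀ j, 1 ≤ j → j < n → j + 1 ≤ (univ.filter (fun x => b x < j)).card := by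
      intro j hj hjn
      have := h1 ⟨j, hjn⟩ hj
      simp only [hf] at this
      exact this
    refine ⟨⟨fun x hx => absurd (Finset.mem_univ x) hx, ?_⟩, ?_, ?_⟩
    · intro i hi
      rw [hcard] at hi
      rcases Nat.eq_zero_or_pos i with rfl | hi0
      · exact Nat.zero_le _
      · rcases hi.lt_or_eq with h | h
        · have := h1' i hi0 h
          omega
        · by_cases hn1 : n = 1
          · subst hn1
            have h2 := h0 0 rfl
            have h3 := (sort_lt_iff (fun x => b x + 1) 0 2).1 (by rw [h2]; omega)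
            rw [hf] at h3
            rw [h]
            exact h3
          · have h2 := h1' (n - 1) (by omega) (by omega)
            have h3 : (univ.filter (fun x => b x < n - 1)).card
                ≤ (univ.filter (fun x => b x < i)).card := by
              apply Finset.card_le_card
              intro x hx
              rw [Finset.mem_filter] at hx ⊢
              refine ⟨hx.1, ?_⟩
              omega
            omega
    · exact ⟨⟨0, hn⟩, Finset.mem_univ _⟩
    · intro C' _ hne hcut
      by_contra hC'
      have h2 : C'.card < n :=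
        lt_of_lt_of_eq (Finset.card_lt_card (Finset.ssubset_univ_iff.2 hC')) hcard
      have h3 := h1' C'.card (Finset.card_pos.2 hne) h2
      have h4 : univ.filter (fun x => b x < C'.card) = C' := by
        ext x
        rw [Finset.mem_filter, hcut.2 x (Finset.mem_univ _)]
        simp
      rw [h4] at h3
      omega
  · rintro ⟨hpf, _, hmin⟩
    constructor
    · intro i hi
      have h1 : 1 ≤ (univ.filter (fun x => b x < 1)).card := hpf.park 1 (by rw [hcard]; exact hn)
      have h2 : ((fun x => b x + 1) ∘ Tuple.sort (fun x => b x + 1)) i < 2 := by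
        rw [sort_lt_iff, hf, hi]
        omega
      have h3 : 1 ≤ ((fun x => b x + 1) ∘ Tuple.sort (fun x => b x + 1)) i := by
        simp
      omega
    · intro i hi
      rw [hf]
      have hin := i.isLt
      rcases (hpf.park i (by rw [hcard]; exact hin.le)).lt_or_eq with h | h
      · exact h
      · exfalso
        have h2 := hmin (univ.filter (fun x => b x < i)) (Finset.subset_univ _)
          (Finset.card_pos.1 (by omega)) ⟨Finset.subset_univ _, fun x hx => by
            rw [Finset.mem_filter, ← h]
            exact ⟨fun h => h.2, fun h => ⟨hx, h⟩⟩⟩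
        rw [h2, hcard] at h
        omega

open Classical in
theorem ncard_spherical {n : ℕ} (hn : 1 ≤ n) (k : ℕ) :
    {a : Fin n → ℕ | IsSphericalParking a ∧ ∑ i, a i + k = n.choose 2 + 1}.ncard
      = (((PF (univ : Finset (Fin n))).filter
          (Min (fun C : Finset (Fin n) => C.Nonempty) univ)).filter
            (fun a => area univ a = k + ((univ : Finset (Fin n)).card - 1))).card := by
  have hcard : (univ : Finset (Fin n)).card = n := Finset.card_fin n
  have hinj : Function.Injective (fun (b : Fin n → ℕ) (x : Fin n) => b x + 1) := by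
    intro b b' h
    funext x
    have := congrFun h x
    simpa using this
  have himg : {a : Fin n → ℕ | IsSphericalParking a ∧ ∑ i, a i + k = n.choose 2 + 1}
      = (fun (b : Fin n → ℕ) (x : Fin n) => b x + 1) ''
        ((((PF (univ : Finset (Fin n))).filter
          (Min (fun C : Finset (Fin n) => C.Nonempty) univ)).filter
            (fun a => area univ a = k + ((univ : Finset (Fin n)).card - 1)) :
              Finset (Fin n → ℕ)) : Set (Fin n → ℕ)) := by
    have key : ∀ b : Fin n → ℕ, (IsSphericalParking (fun x => b x + 1) ∧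
        ∑ i, (b i + 1) + k = n.choose 2 + 1) ↔
          b ∈ ((PF (univ : Finset (Fin n))).filter
          (Min (fun C : Finset (Fin n) => C.Nonempty) univ)).filter
            (fun a => area univ a = k + ((univ : Finset (Fin n)).card - 1)) := by
      intro b
      rw [Finset.mem_filter, Finset.mem_filter, mem_PF, isSphericalParking_succ_iff hn]
      refine and_congr_right fun h => ?_
      have h1 := h.1.sum_le
      unfold area
      rw [Finset.sum_add_distrib, Finset.sum_const, hcard] at *
      simp only [smul_eq_mul, mul_one]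
      omega
    ext a
    simp only [Set.mem_ofPred_eq, Set.mem_image, Finset.mem_coe]
    constructor
    · intro h
      have h1 := h.1.one_le
      have h2 : (fun x => (a x - 1) + 1) = a := by
        funext x
        have := h1 x
        omega
      refine ⟨fun x => a x - 1, ?_, h2⟩
      rw [← key, h2]
      exact h
    · rintro ⟨b, hb, rfl⟩
      exact (key b).2 hb
  rw [himg, Set.ncard_image_of_injective _ hinj, Set.ncard_coe_finset]

end Parking

section Trees

open ForestOrd TreeOrd

open Classical in
/-- the ancestor relation on the vertices different from the root -/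
noncomputable def rel {n : ℕ} (G : SimpleGraph (Fin n)) (r : Fin n) :
    Finset (Fin n × Fin n) :=
  univ.filter (fun p => p.1 ≠ r ∧ p.2 ≠ p.1 ∧ OnPath G r p.2 p.1)

theorem mem_rel {n : ℕ} {G : SimpleGraph (Fin n)} {r x y : Fin n} :
    (x, y) ∈ rel G r ↔ x ≠ r ∧ y ≠ x ∧ OnPath G r y x := by
  classical
  unfold rel
  rw [Finset.mem_filter]
  simp

theorem mem_rel' {n : ℕ} {G : SimpleGraph (Fin n)} {r x y : Fin n} (h : (x, y) ∈ rel G r) :
    y ≠ r := by
  rw [mem_rel] at h
  rintro rfl
  obtain ⟨h1, _, h2⟩ := h
  rw [onPath_self] at h2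
  exact h1 h2

theorem isFO_rel {n : ℕ} {G : SimpleGraph (Fin n)} (hG : G.IsTree) (r : Fin n) :
    IsFO (univ.erase r) (rel G r) := by
  constructor
  · intro x y h
    have h2 := mem_rel' h
    rw [mem_rel] at h
    rw [Finset.mem_erase, Finset.mem_erase]
    exact ⟨⟨h.1, Finset.mem_univ _⟩, h2, Finset.mem_univ _⟩
  · intro x h
    rw [mem_rel] at h
    exact h.2.1 rfl
  · intro x y z h1 h2
    rw [mem_rel] at h1 h2 ⊢
    refine ⟨h1.1, ?_, onPath_trans hG r h1.2.2 h2.2.2⟩
    rintro rfl
    exact h2.2.1 (onPath_antisymm hG r h1.2.2 h2.2.2).symm.symm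
  · intro x y z h1 h2
    rw [mem_rel] at h1 h2
    by_cases hxy : x = y
    · exact Or.inl hxy
    · right
      rcases onPath_total hG r h1.2.2 h2.2.2 with h | h
      · left
        rw [mem_rel]
        exact ⟨h1.1, Ne.symm hxy, h⟩
      · right
        rw [mem_rel]
        exact ⟨h2.1, hxy, h⟩

theorem isRoot_rel_iff {n : ℕ} {G : SimpleGraph (Fin n)} (hG : G.IsTree) (r c : Fin n) :
    IsRoot (univ.erase r) (rel G r) c ↔ G.Adj r c := by
  constructor
  · rintro ⟨h1, h2⟩
    rw [Finset.mem_erase] at h1
    refine ((adj_iff hG r r c).2 ⟨h1.1, onPath_start hG r c, fun z _ hz => ?_⟩).1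
    by_cases hzr : z = r
    · exact Or.inl hzr
    · right
      by_contra hzc
      exact h2 z (mem_rel.2 ⟨hzr, Ne.symm hzc, hz⟩)
  · intro h
    have h1 : OnPath G r c r := onPath_start hG r c
    have h2 := (adj_iff hG r r c).1 ⟨h, h1⟩
    refine ⟨Finset.mem_erase.2 ⟨h.ne', Finset.mem_univ _⟩, fun z hz => ?_⟩
    rw [mem_rel] at hz
    rcases h2.2.2 z (onPath_start hG r z) hz.2.2 with h3 | h3
    · exact hz.1 h3
    · exact hz.2.1 h3.symm

theorem surfaceInversions_eq {n : ℕ} (G : SimpleGraph (Fin n)) (r : Fin n) :
    (surfaceInversions G r).ncard = inv (rel G r) := by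
  have h : surfaceInversions G r = (((rel G r).filter (fun p => p.2 < p.1) :
      Finset (Fin n × Fin n)) : Set (Fin n × Fin n)) := by
    ext ⟨x, y⟩
    unfold surfaceInversions IsDescendant
    simp only [Set.mem_ofPred_eq, Finset.mem_coe, Finset.mem_filter]
    constructor
    · rintro ⟨h1, _, h3, h4⟩
      exact ⟨mem_rel.2 ⟨h1, h3.1, h3.2⟩, h4⟩
    · rintro ⟨h1, h2⟩
      have h3 := mem_rel.1 h1
      exact ⟨h3.1, mem_rel' h1, ⟨h3.2.1, h3.2.2⟩, h2⟩
  rw [h, Set.ncard_coe_finset]
  rfl

theorem onPath_iff_rel {n : ℕ} {G : SimpleGraph (Fin n)} (hG : G.IsTree) (r v a : Fin n) :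
    OnPath G r v a ↔ a = v ∨ a = r ∨ (a, v) ∈ rel G r := by
  rw [mem_rel]
  constructor
  · intro h
    by_cases h1 : a = v
    · exact Or.inl h1
    · by_cases h2 : a = r
      · exact Or.inr (Or.inl h2)
      · exact Or.inr (Or.inr ⟨h2, Ne.symm h1, h⟩)
  · rintro (rfl | rfl | h)
    · exact onPath_end hG r a
    · exact onPath_start hG a v
    · exact h.2.2

open Classical in
theorem ncard_uprooted {n : ℕ} (k : ℕ) :
    {T : SimpleGraph (Fin n) × Fin n |
        IsUprooted T.1 T.2 ∧ (surfaceInversions T.1 T.2).ncard = k}.ncard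
      = ∑ r ∈ (univ : Finset (Fin n)), (((FO ((univ : Finset (Fin n)).erase r)).filter
          (fun R => ∀ s, IsRoot ((univ : Finset (Fin n)).erase r) R s → s < r)).filter
            (fun R => inv R = k)).card := by
  rw [← Finset.card_sigma, ← Set.ncard_coe_finset]
  refine Set.ncard_congr (fun T _ => ⟨T.2, rel T.1 T.2⟩) ?_ ?_ ?_
  · rintro ⟨G, r⟩ ⟨⟨hG, hup⟩, hk⟩
    simp only at hG hup hk
    rw [Finset.mem_coe, Finset.mem_sigma, Finset.mem_filter, Finset.mem_filter, mem_FO]
    refine ⟨Finset.mem_univ _, ⟨isFO_rel hG r, fun s hs => ?_⟩, ?_⟩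
    · exact hup s ((isRoot_rel_iff hG r s).1 hs)
    · rw [← surfaceInversions_eq]
      exact hk
  · rintro ⟨G, r⟩ ⟨G', r'⟩ ⟨⟨hG, _⟩, _⟩ ⟨⟨hG', _⟩, _⟩ h
    simp only [Sigma.mk.injEq] at h hG hG'
    obtain ⟨rfl, h⟩ := h
    have h2 : rel G r = rel G' r := eq_of_heq h
    rw [Prod.mk.injEq]
    refine ⟨eq_of_onPath_iff hG hG' r fun x y => ?_, rfl⟩
    rw [onPath_iff_rel hG, onPath_iff_rel hG', h2]
  · rintro ⟨r, R⟩ h
    rw [Finset.mem_coe, Finset.mem_sigma, Finset.mem_filter, Finset.mem_filter, mem_FO] at h
    obtain ⟨_, ⟨hR, hroot⟩, hinv⟩ := h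
    simp only at hR hroot hinv
    have hne : ∀ x y, (x, y) ∈ R → x ≠ r ∧ y ≠ r := by
      intro x y h
      have := hR.sub x y h
      rw [Finset.mem_erase, Finset.mem_erase] at this
      exact ⟨this.1.1, this.2.1⟩
    obtain ⟨G, hG, hon⟩ := exists_tree r (fun x y => (x = r ∧ y ≠ r) ∨ (x, y) ∈ R)
      (by
        rintro x (h | h)
        · exact h.2 h.1
        · exact hR.irrefl x h)
      (by
        rintro x y z (h1 | h1) (h2 | h2)
        · exact absurd h2.1 h1.2
        · exact Or.inl ⟨h1.1, (hne _ _ h2).2⟩
        · exact absurd h2.1 (hne _ _ h1).2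
        · exact Or.inr (hR.trans _ _ _ h1 h2))
      (by
        rintro x y z (h1 | h1) (h2 | h2)
        · exact Or.inl (h1.1.trans h2.1.symm)
        · exact Or.inr (Or.inl (Or.inl ⟨h1.1, (hne _ _ h2).1⟩))
        · exact Or.inr (Or.inr (Or.inl ⟨h2.1, (hne _ _ h1).1⟩))
        · rcases hR.chain _ _ _ h1 h2 with h | h | h
          · exact Or.inl h
          · exact Or.inr (Or.inl (Or.inr h))
          · exact Or.inr (Or.inr (Or.inr h)))
      (fun x hx => Or.inl ⟨rfl, hx⟩)
    have hrel : rel G r = R := by
      ext ⟨x, y⟩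
      rw [mem_rel, hon]
      constructor
      · rintro ⟨h1, h2, h3 | h3 | h3⟩
        · exact absurd h3.symm h2
        · exact absurd h3.1 h1
        · exact h3
      · intro h
        refine ⟨(hne _ _ h).1, ?_, Or.inr (Or.inr h)⟩
        rintro rfl
        exact hR.irrefl _ h
    refine ⟨(G, r), ⟨⟨hG, fun c hc => ?_⟩, ?_⟩, ?_⟩
    · refine hroot c ?_
      rw [← hrel]
      exact (isRoot_rel_iff hG r c).2 hc
    · simp only
      rw [surfaceInversions_eq, hrel]
      exact hinv
    · simp only [hrel]

end Trees

/-- **Spherical parking functions by degree and uprooted trees by surface inversions.**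
For every `n ≥ 1` and every `k ≥ 0`, the number of spherical parking functions of length `n` of
degree `n choose 2 - k + 1` equals the number of uprooted trees on `n` vertices with exactly `k`
surface inversions. -/
theorem result (n : ℕ) (hn : 1 ≤ n) (k : ℕ) :
    {a : Fin n → ℕ | IsSphericalParking a ∧ ∑ i, a i + k = n.choose 2 + 1}.ncard
      = {T : SimpleGraph (Fin n) × Fin n |
          IsUprooted T.1 T.2 ∧ (surfaceInversions T.1 T.2).ncard = k}.ncard := by
  classical
  rw [ncard_spherical hn, ncard_uprooted,
    Parking.card_prime_eq univ ⟨⟨0, hn⟩, Finset.mem_univ _⟩ k]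
  refine Finset.sum_congr rfl fun r _ => ?_
  congr!

end Pool.Agent.Results.MP_dc922b_co.SphericalUprooted
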